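import Pool.Agent.H6.TP.Targets

/-!
# Row MRS: the theorem for all rational frequencies of bounded denominator
-/

set_option autoImplicit false

open Finset Pool.Agent.H6.N4D Pool.Agent.H6.TP

namespace Pool.Agent.H69.TP

theorem pf_MRS (hMRW : T_MRW) : T_MRS := by
  intro Q ε hε
  have hQ0 : (0 : ℝ) < (Q : ℝ) ^ 2 + 1 := by positivity
  obtain ⟨ε', hε', hε'0⟩ : ∃ ε' : ℝ, ε' * ((Q : ℝ) ^ 2 + 1) = ε ∧ 0 < ε' :=
    ⟨ε / ((Q : ℝ) ^ 2 + 1), by field_simp, by positivity⟩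
  have h1 : ∀ q a : ℕ, ∃ H₀ : ℕ, ∀ H, H₀ ≤ H → ∃ N₀ : ℕ, ∀ N, N₀ ≤ N →
      ∀ lam : ℕ → ℝ, Lio lam → 1 ≤ q →
        ∑ n ∈ range N, cor lam H n ((a : ℝ) / q) ≤ ε' * N := by
    intro q a
    by_cases hq : 1 ≤ q
    · obtain ⟨H₀, hH⟩ := hMRW q a ε' hq hε'0
      refine ⟨H₀, fun H h => ?_⟩
      obtain ⟨N₀, hN⟩ := hH H h
      exact ⟨N₀, fun N hN' lam hl _ => hN N hN' lam hl⟩
    · exact ⟨0, fun H _ => ⟨0, fun N _ lam _ h => absurd h hq⟩⟩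
  choose H₀ hH using h1
  refine ⟨(Icc 1 Q).sup fun q => (range q).sup fun a => H₀ q a, fun H hHge => ?_⟩
  have h2 : ∀ q ∈ Icc 1 Q, ∀ a ∈ range q, H₀ q a ≤ H := by
    intro q hq a ha
    refine le_trans ?_ hHge
    refine le_trans ?_ (le_sup (f := fun q => (range q).sup fun a => H₀ q a) hq)
    exact le_sup (f := fun a => H₀ q a) ha
  have h3 : ∀ q a : ℕ, ∃ N₀ : ℕ, q ∈ Icc 1 Q → a ∈ range q → ∀ N, N₀ ≤ N →
      ∀ lam : ℕ → ℝ, Lio lam → ∑ n ∈ range N, cor lam H n ((a : ℝ) / q) ≤ ε' * N := by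
    intro q a
    by_cases hq : q ∈ Icc 1 Q ∧ a ∈ range q
    · obtain ⟨N₀, hN⟩ := hH q a H (h2 q hq.1 a hq.2)
      exact ⟨N₀, fun _ _ N hN' lam hl => hN N hN' lam hl (mem_Icc.1 hq.1).1⟩
    · exact ⟨0, fun h h' => absurd ⟨h, h'⟩ hq⟩
  choose N₀ hN using h3
  refine ⟨(Icc 1 Q).sup fun q => (range q).sup fun a => N₀ q a, fun N hNge lam hl => ?_⟩
  have h4 : ∀ q ∈ Icc 1 Q, ∀ a ∈ range q, N₀ q a ≤ N := by
    intro q hq a ha
    refine le_trans ?_ hNge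
    refine le_trans ?_ (le_sup (f := fun q => (range q).sup fun a => N₀ q a) hq)
    exact le_sup (f := fun a => N₀ q a) ha
  unfold SQ
  rw [sum_comm]
  have hN0 : (0 : ℝ) ≤ N := Nat.cast_nonneg N
  calc ∑ q ∈ Icc 1 Q, ∑ n ∈ range N, ∑ a ∈ range q, cor lam H n ((a : ℝ) / q)
      = ∑ q ∈ Icc 1 Q, ∑ a ∈ range q, ∑ n ∈ range N, cor lam H n ((a : ℝ) / q) :=
        sum_congr rfl fun q _ => sum_comm
    _ ≤ ∑ q ∈ Icc 1 Q, ∑ _a ∈ range q, ε' * N :=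
        sum_le_sum fun q hq => sum_le_sum fun a ha => hN q a hq ha N (h4 q hq a ha) lam hl
    _ = ∑ q ∈ Icc 1 Q, (q : ℝ) * (ε' * N) := by simp
    _ ≤ ∑ _q ∈ Icc 1 Q, (Q : ℝ) * (ε' * N) := by
        refine sum_le_sum fun q hq => mul_le_mul_of_nonneg_right ?_ (by positivity)
        exact_mod_cast (mem_Icc.1 hq).2
    _ = (Q : ℝ) ^ 2 * (ε' * N) := by simp; ring
    _ ≤ ((Q : ℝ) ^ 2 + 1) * (ε' * N) :=
        mul_le_mul_of_nonneg_right (by linarith) (by positivity)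
    _ = ε * N := by rw [← hε']; ring

end Pool.Agent.H69.TP
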