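import Pool.Agent.H6.TP.Targets

/-!
# Row ENP: from the mean energy to most windows
-/

set_option autoImplicit false

open Finset Pool.Agent.H6.N4D Pool.Agent.H6.TP

namespace Pool.Agent.H69.TP

private lemma two_div_pi_gt : (636 / 1000 : ℝ) < 2 / Real.pi := by
  rw [lt_div_iff₀ Real.pi_pos]
  have := Real.pi_lt_d4
  nlinarith

private lemma two_div_pi_lt : 2 / Real.pi < (637 / 1000 : ℝ) := by
  rw [div_lt_iff₀ Real.pi_pos]
  have := Real.pi_gt_d4
  nlinarith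

private lemma ph_le_one {x : ℝ} (h : x ≤ 1) : ph x ≤ 1 := by
  unfold ph
  have h1 : 0 ≤ max (x - 63 / 100) 0 := le_max_right _ _
  have h2 : max (x - 63 / 100) 0 ≤ 1 := max_le (by linarith) (by norm_num)
  exact pow_le_one₀ h1 h2

private lemma ph_gap {κ : ℝ} (h : 0 < κ) : ph (2 / Real.pi - κ) < ph (2 / Real.pi) := by
  have h1 := two_div_pi_gt
  unfold ph
  have h2 : max (2 / Real.pi - 63 / 100) 0 = 2 / Real.pi - 63 / 100 :=
    max_eq_left (by linarith)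
  rw [h2]
  refine pow_lt_pow_left₀ ?_ (le_max_right _ _) two_ne_zero
  exact max_lt (by linarith) (by linarith)

private lemma ph_up {s : ℝ} (h0 : 0 ≤ s) (h1 : s ≤ 1 / 10) :
    ph (2 / Real.pi + s) - ph (2 / Real.pi) ≤ 2 * s := by
  have h3 := two_div_pi_gt
  have h4 := two_div_pi_lt
  unfold ph
  rw [max_eq_left (by linarith : (0 : ℝ) ≤ 2 / Real.pi - 63 / 100),
    max_eq_left (by linarith : (0 : ℝ) ≤ 2 / Real.pi + s - 63 / 100)]
  nlinarith

private lemma harm_le {X : ℝ} (hX : 1 ≤ X) :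
    ∑ n ∈ Icc 1 ⌊X⌋₊, 1 / (n : ℝ) ≤ 1 + Real.log X := by
  have h := harmonic_floor_le_one_add_log X hX
  rw [harmonic_eq_sum_Icc] at h
  push_cast at h
  simpa [one_div] using h

theorem pf_ENP : T_ENP := by
  classical
  intro κ₂ δ hκ₂ hδ
  obtain ⟨D, hD⟩ : ∃ D : ℝ, D = ph (2 / Real.pi) - ph (2 / Real.pi - κ₂) := ⟨_, rfl⟩
  have hD0 : 0 < D := by rw [hD]; linarith [ph_gap hκ₂]
  obtain ⟨s, hs⟩ : ∃ s : ℝ, s = min κ₂ (min (δ * D / 16) (1 / 10)) := ⟨_, rfl⟩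
  obtain ⟨κ, hκ⟩ : ∃ κ : ℝ, κ = δ * D / 16 := ⟨_, rfl⟩
  have hδD : 0 < δ * D := mul_pos hδ hD0
  have hκ0 : 0 < κ := by rw [hκ]; positivity
  have hs0 : 0 < s := by
    rw [hs]
    exact lt_min hκ₂ (lt_min (by positivity) (by norm_num))
  have hs1 : s ≤ κ₂ := by rw [hs]; exact min_le_left _ _
  have hs2 : s ≤ δ * D / 16 := by rw [hs]; exact (min_le_right _ _).trans (min_le_left _ _)
  have hs3 : s ≤ 1 / 10 := by rw [hs]; exact (min_le_right _ _).trans (min_le_right _ _)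
  refine ⟨κ, s, Real.exp (2 / (δ * D)), hκ0, hs0, hs1, ?_⟩
  intro X a E hX ha haE hE hlow
  have hX1 : 1 ≤ X := (Real.one_le_exp (by positivity)).trans hX
  have hL : 2 / (δ * D) ≤ Real.log X := by
    have := Real.log_le_log (Real.exp_pos _) hX
    rwa [Real.log_exp] at this
  have hL' : 2 ≤ Real.log X * (δ * D) := by rwa [div_le_iff₀ hδD] at hL
  have hT := harm_le hX1
  obtain ⟨L, hLd⟩ : ∃ L : ℝ, L = Real.log X := ⟨_, rfl⟩
  rw [← hLd] at hT hE hlow hL' ⊢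
  obtain ⟨G, hG⟩ : ∃ G : ℝ, G = ph (2 / Real.pi + s) - ph (2 / Real.pi - κ₂) := ⟨_, rfl⟩
  have hDG : D ≤ G := by
    rw [hD, hG]
    have := ph_mono (by linarith : 2 / Real.pi ≤ 2 / Real.pi + s)
    linarith
  have hp1 : ph (2 / Real.pi + s) ≤ 1 := ph_le_one (by linarith [two_div_pi_lt])
  have hp0 : 0 ≤ ph (2 / Real.pi + s) := ph_nonneg _
  -- pointwise
  have hpt : ∀ n ∈ Icc 1 ⌊X⌋₊, ph (a n) / n ≤
      (if E n then 1 / (n : ℝ) else 0) + ph (2 / Real.pi + s) * (1 / (n : ℝ)) -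
        G * (if a n < 2 / Real.pi - κ₂ then 1 / (n : ℝ) else 0) := by
    intro n hn
    have hn1 : 1 ≤ n := (mem_Icc.1 hn).1
    have hn0 : (0 : ℝ) ≤ 1 / (n : ℝ) := by positivity
    rw [div_eq_mul_one_div]
    by_cases hB : a n < 2 / Real.pi - κ₂
    · rw [if_pos hB]
      have h1 : ph (a n) ≤ ph (2 / Real.pi - κ₂) := ph_mono hB.le
      have h2 : ph (a n) * (1 / (n : ℝ)) ≤ ph (2 / Real.pi - κ₂) * (1 / (n : ℝ)) :=
        mul_le_mul_of_nonneg_right h1 hn0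
      have h3 : (0 : ℝ) ≤ if E n then 1 / (n : ℝ) else 0 := by split_ifs <;> positivity
      have h4 : ph (2 / Real.pi + s) * (1 / (n : ℝ)) - G * (1 / (n : ℝ)) =
          ph (2 / Real.pi - κ₂) * (1 / (n : ℝ)) := by rw [hG]; ring
      linarith
    · rw [if_neg hB]
      by_cases hEn : E n
      · rw [if_pos hEn]
        have h1 : ph (a n) ≤ 1 := ph_le_one (ha n).2
        have h2 : ph (a n) * (1 / (n : ℝ)) ≤ 1 * (1 / (n : ℝ)) :=
          mul_le_mul_of_nonneg_right h1 hn0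
        have h3 := mul_nonneg hp0 hn0
        linarith
      · rw [if_neg hEn]
        have h1 : ph (a n) ≤ ph (2 / Real.pi + s) := ph_mono (haE n hn1 hEn)
        have h2 := mul_le_mul_of_nonneg_right h1 hn0
        linarith
  have hsum := sum_le_sum hpt
  rw [sum_sub_distrib, sum_add_distrib, ← mul_sum, ← mul_sum, ← sum_filter, ← sum_filter]
    at hsum
  obtain ⟨b, hb⟩ : ∃ b : ℝ, b = ∑ n ∈ (Icc 1 ⌊X⌋₊).filter
    (fun n => a n < 2 / Real.pi - κ₂), 1 / (n : ℝ) := ⟨_, rfl⟩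
  have hb0 : 0 ≤ b := by rw [hb]; exact sum_nonneg fun n _ => by positivity
  rw [← hb] at hsum ⊢
  have hT2 := mul_le_mul_of_nonneg_left hT hp0
  have hup := ph_up hs0.le hs3
  have hL0 : 0 < L := by
    have : 0 < L * (δ * D) := by linarith
    exact (pos_iff_pos_of_mul_pos this).2 hδD
  have hb1 : D * b ≤ G * b := mul_le_mul_of_nonneg_right hDG hb0
  have h5 : ph (2 / Real.pi + s) * L - ph (2 / Real.pi) * L ≤ 2 * s * L := by
    rw [← sub_mul]
    exact mul_le_mul_of_nonneg_right hup hL0.le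
  have h6 : s * L ≤ δ * D / 16 * L := mul_le_mul_of_nonneg_right hs2 hL0.le
  have h7 : κ * L = δ * D / 16 * L := by rw [hκ]
  have h8 : D * b ≤ D * (δ * L) := by nlinarith
  exact le_of_mul_le_mul_left h8 hD0

end Pool.Agent.H69.TP
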